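import Pool.Agent.helper73.TC.XDefs

/-!
# Complex projective space is Hausdorff
-/

set_option autoImplicit false
open Topology
open scoped LinearAlgebra.Projectivization

noncomputable section
namespace Pool.Agent.helper73.TC

/-- squared norm, as a complex number -/
private def nsq {n : ℕ} (v : Fin (n + 1) → ℂ) : ℂ := ∑ k, v k * (starRingEnd ℂ) (v k)

private theorem nsq_eq {n : ℕ} (v : Fin (n + 1) → ℂ) :
    nsq v = ((∑ k, ‖v k‖ ^ 2 : ℝ) : ℂ) := by
  unfold nsq
  push_cast
  refine Finset.sum_congr rfl fun k _ => ?_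
  rw [Complex.mul_conj, Complex.normSq_eq_norm_sq]
  push_cast
  rfl

private theorem nsq_ne {n : ℕ} {v : Fin (n + 1) → ℂ} (hv : v ≠ 0) : nsq v ≠ 0 := by
  rw [nsq_eq]
  have h : ∃ k, v k ≠ 0 := by
    by_contra hc
    push Not at hc
    exact hv (funext hc)
  obtain ⟨k, hk⟩ := h
  have h1 : (0:ℝ) < ∑ k, ‖v k‖ ^ 2 := by
    refine Finset.sum_pos' (fun i _ => by positivity) ⟨k, Finset.mem_univ _, ?_⟩
    have := norm_pos_iff.mpr hk
    positivity
  exact_mod_cast h1.ne'

/-- the projector on a line -/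
private def pr {n : ℕ} (v : {v : Fin (n + 1) → ℂ // v ≠ 0}) : Fin (n + 1) → Fin (n + 1) → ℂ :=
  fun i j => v.1 i * (starRingEnd ℂ) (v.1 j) / nsq v.1

private theorem pr_cont {n : ℕ} : Continuous (pr (n := n)) := by
  refine continuous_pi fun i => continuous_pi fun j => ?_
  unfold pr
  refine Continuous.div ?_ ?_ (fun v => nsq_ne v.2)
  · exact ((continuous_apply i).comp continuous_subtype_val).mul
      (Complex.continuous_conj.comp ((continuous_apply j).comp continuous_subtype_val))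
  · unfold nsq
    refine continuous_finsetSum _ fun k _ => ?_
    exact ((continuous_apply k).comp continuous_subtype_val).mul
      (Complex.continuous_conj.comp ((continuous_apply k).comp continuous_subtype_val))

private theorem pr_rel {n : ℕ} (v w : {v : Fin (n + 1) → ℂ // v ≠ 0})
    (h : (projectivizationSetoid ℂ (Fin (n + 1) → ℂ)).r v w) : pr v = pr w := by
  obtain ⟨c, hc⟩ := h
  have hc' : ∀ k, v.1 k = (c : ℂ) * w.1 k := by
    intro k
    have := congrFun hc k
    rw [← this]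
    rfl
  have hcc : (c : ℂ) * (starRingEnd ℂ) (c : ℂ) ≠ 0 := by
    have h0 : (c : ℂ) ≠ 0 := c.ne_zero
    exact mul_ne_zero h0 ((map_ne_zero _).mpr h0)
  have hn : nsq v.1 = ((c : ℂ) * (starRingEnd ℂ) (c : ℂ)) * nsq w.1 := by
    unfold nsq
    rw [Finset.mul_sum]
    refine Finset.sum_congr rfl fun k _ => ?_
    rw [hc' k, map_mul]
    ring
  funext i j
  unfold pr
  rw [hn, hc' i, hc' j, map_mul]
  rw [show (c : ℂ) * w.1 i * ((starRingEnd ℂ) (c : ℂ) * (starRingEnd ℂ) (w.1 j)) =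
    ((c : ℂ) * (starRingEnd ℂ) (c : ℂ)) * (w.1 i * (starRingEnd ℂ) (w.1 j)) by ring]
  exact mul_div_mul_left _ _ hcc

private theorem pr_inj {n : ℕ} (v w : {v : Fin (n + 1) → ℂ // v ≠ 0}) (h : pr v = pr w) :
    (projectivizationSetoid ℂ (Fin (n + 1) → ℂ)).r v w := by
  have hk : ∃ k, w.1 k ≠ 0 := by
    by_contra hc
    push Not at hc
    exact w.2 (funext hc)
  obtain ⟨j, hj⟩ := hk
  have hij : ∀ i k, v.1 i * (starRingEnd ℂ) (v.1 k) / nsq v.1 =
      w.1 i * (starRingEnd ℂ) (w.1 k) / nsq w.1 := fun i k => congrFun (congrFun h i) k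
  have hnv := nsq_ne v.2
  have hnw := nsq_ne w.2
  have hwj : (starRingEnd ℂ) (w.1 j) ≠ 0 := (map_ne_zero _).mpr hj
  have hvj : (starRingEnd ℂ) (v.1 j) ≠ 0 := by
    intro h0
    have h1 := hij j j
    rw [h0, mul_zero, zero_div] at h1
    exact (div_ne_zero (mul_ne_zero hj hwj) hnw) h1.symm
  have hc0 : (starRingEnd ℂ) (w.1 j) * nsq v.1 / (nsq w.1 * (starRingEnd ℂ) (v.1 j)) ≠ 0 :=
    div_ne_zero (mul_ne_zero hwj hnv) (mul_ne_zero hnw hvj)
  refine ⟨Units.mk0 _ hc0, ?_⟩
  funext i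
  have h1 := hij i j
  rw [div_eq_div_iff hnv hnw] at h1
  show (starRingEnd ℂ) (w.1 j) * nsq v.1 / (nsq w.1 * (starRingEnd ℂ) (v.1 j)) * w.1 i = v.1 i
  rw [div_mul_eq_mul_div, div_eq_iff (mul_ne_zero hnw hvj)]
  linear_combination -h1

theorem t2_CP (n : ℕ) : T2Space (CP n) := by
  let F : CP n → Fin (n + 1) → Fin (n + 1) → ℂ :=
    Quotient.lift (s := projectivizationSetoid ℂ (Fin (n + 1) → ℂ)) (pr (n := n))
      (fun v w h => pr_rel v w h)
  have hF : Continuous F := pr_cont.quotient_lift _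
  have hi : Function.Injective F := by
    intro x y
    refine Quotient.inductionOn₂ (s₁ := projectivizationSetoid ℂ (Fin (n + 1) → ℂ))
      (s₂ := projectivizationSetoid ℂ (Fin (n + 1) → ℂ)) x y ?_
    intro v w h
    exact Quotient.sound (s := projectivizationSetoid ℂ (Fin (n + 1) → ℂ)) (pr_inj v w h)
  exact T2Space.of_injective_continuous hi hF

end Pool.Agent.helper73.TC
end
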